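import Pool.Agent.Helper826.Barely.Perm

/-!
MP_04dca5_al: a finitary transitive `p`-group whose elements have cycles filling at least a fixed
proportion of arbitrarily large finite blocks is not barely transitive.
-/

set_option autoImplicit false

namespace Pool.Agent.Results.MP_04dca5_al.LongCycles

/-- Let `p` be a prime and `G` a `p`-group of permutations of an infinite set `Ω`, each of finite
support, transitive on `Ω`. Suppose that for some `r` every finite subset of `Ω` lies in a finite
block `B` of `G` such that a cycle of some element of `G` contains at least `|B| / r` points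
of `B`. Then some proper subgroup of `G` has an infinite orbit. -/
theorem result (p : ℕ) (hp : p.Prime) (Ω : Type*) [Infinite Ω] (G : Subgroup (Equiv.Perm Ω))
    (hG : ∀ g ∈ G, ∃ n : ℕ, g ^ p ^ n = 1)
    (hfin : ∀ g ∈ G, {a : Ω | g a ≠ a}.Finite)
    (htr : ∀ a b : Ω, ∃ g ∈ G, g a = b)
    (r : ℕ)
    (hr : ∀ F : Set Ω, F.Finite → ∃ B : Set Ω, F ⊆ B ∧ B.Finite ∧
      (∀ g ∈ G, ⇑g '' B = B ∨ Disjoint (⇑g '' B) B) ∧
      ∃ x ∈ G, ∃ a : Ω, B.ncard ≤ r * (B ∩ {b | ∃ n : ℤ, (x ^ n) a = b}).ncard) :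
    ∃ H : Subgroup (Equiv.Perm Ω), H < G ∧ ∃ a : Ω, {b | ∃ h ∈ H, h a = b}.Infinite :=
  Pool.Agent.Helper826.Barely.perm_main p hp Ω G hG hfin htr r hr

end Pool.Agent.Results.MP_04dca5_al.LongCycles
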